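import Pool.Agent.Helper56.TOF.Goals
import Mathlib

/-!
Packet TOF-PSI of project TOF (helper4): elementary properties of `Psi`.
-/

set_option autoImplicit false

open Set Filter Topology

namespace Pool.Agent.Helper4.TOF

open Pool.Agent.Helper56.TOF Pool.Agent.Helper30.CIR

theorem norm_ee (τ : ℝ) : ‖ee τ‖ = 1 := by
  unfold ee
  exact Complex.norm_exp_ofReal_mul_I _

theorem norm_cee (c τ : ℝ) (hc : 0 ≤ c) : ‖(c : ℂ) * ee τ‖ = c := by
  rw [norm_mul, norm_ee, mul_one, Complex.norm_real, Real.norm_of_nonneg hc]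

theorem re_pos {z : ℂ} (hz : ‖z‖ ≤ 1 / 10) : 9 / 10 ≤ (1 + z).re := by
  have h1 := Complex.abs_re_le_norm z
  have h2 := (abs_le.1 (h1.trans hz)).1
  rw [Complex.add_re, Complex.one_re]
  linarith

theorem norm_ge {z : ℂ} (hz : ‖z‖ ≤ 1 / 10) : 9 / 10 ≤ ‖1 + z‖ :=
  (re_pos hz).trans ((le_abs_self _).trans (Complex.abs_re_le_norm _))

theorem abs_eF {z : ℂ} (hz : ‖z‖ ≤ 1 / 10) : |eF z| ≤ ‖z‖ := by
  have hre := re_pos hz
  have hn := norm_ge hz
  have h1 : |(1 + z).arg| ≤ Real.pi / 2 := Complex.abs_arg_le_pi_div_two_iff.2 (by linarith)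
  have h2 := Real.mul_le_sin (abs_nonneg (1 + z).arg) h1
  have h3 : Real.sin |(1 + z).arg| = |(1 + z).im| / ‖1 + z‖ := by
    have h4 : |Real.sin (1 + z).arg| = Real.sin |(1 + z).arg| := by
      rcases abs_cases (1 + z).arg with ⟨h5, h6⟩ | ⟨h5, h6⟩
      · rw [h5, abs_of_nonneg]
        exact Real.sin_nonneg_of_nonneg_of_le_pi h6 (by
          rw [h5] at h1
          linarith [Real.pi_pos])
      · rw [h5, Real.sin_neg, abs_of_nonpos]
        exact Real.sin_nonpos_of_nonpos_of_neg_pi_le h6.le (by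
          rw [h5] at h1
          linarith [Real.pi_pos])
    rw [← h4, Complex.sin_arg, abs_div, abs_of_nonneg (norm_nonneg (1 + z))]
  rw [h3] at h2
  have h4 : |(1 + z).im| ≤ ‖z‖ := by
    rw [Complex.add_im, Complex.one_im, zero_add]
    exact Complex.abs_im_le_norm z
  have h5 : |(1 + z).im| / ‖1 + z‖ ≤ 2 * ‖z‖ := by
    rw [div_le_iff₀ (by linarith)]
    nlinarith [norm_nonneg z, abs_nonneg (1 + z).im]
  have hpi := Real.pi_pos
  unfold eF
  rw [abs_div, abs_of_pos hpi, div_le_iff₀ hpi]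
  have h6 : 2 / Real.pi * |(1 + z).arg| ≤ 2 * ‖z‖ := h2.trans h5
  have h7 : |(1 + z).arg| = Real.pi / 2 * (2 / Real.pi * |(1 + z).arg|) := by
    field_simp
  rw [h7]
  calc Real.pi / 2 * (2 / Real.pi * |(1 + z).arg|) ≤ Real.pi / 2 * (2 * ‖z‖) :=
        mul_le_mul_of_nonneg_left h6 (by positivity)
    _ = ‖z‖ * Real.pi := by ring

theorem ee_eF (c τ : ℝ) (hc : 0 ≤ c) (hc' : c ≤ 1 / 10) :
    ee (-eF ((c : ℂ) * ee τ)) * ee τ = (ee τ + c) / (1 + (c : ℂ) * ee τ) := by
  have hz : ‖(c : ℂ) * ee τ‖ ≤ 1 / 10 := by rw [norm_cee c τ hc]; exact hc'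
  have hn := norm_ge hz
  obtain ⟨v, hv⟩ : ∃ v, v = 1 + (c : ℂ) * ee τ := ⟨_, rfl⟩
  rw [← hv] at hn
  have hv0 : v ≠ 0 := by
    intro h
    rw [h, norm_zero] at hn
    norm_num at hn
  have h1 : ee (-eF ((c : ℂ) * ee τ)) = (Complex.exp ((v.arg : ℂ) * Complex.I))⁻¹ ^ 2 := by
    unfold eF
    rw [← hv]
    unfold ee
    rw [← Complex.exp_neg, ← Complex.exp_nat_mul]
    congr 1
    have hpi : (Real.pi : ℂ) ≠ 0 := by exact_mod_cast Real.pi_ne_zero
    push_cast
    field_simp
  have h2 : Complex.exp ((v.arg : ℂ) * Complex.I) = v / ‖v‖ := by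
    have h3 := Complex.norm_mul_exp_arg_mul_I v
    rw [eq_div_iff (by exact_mod_cast (norm_ne_zero_iff.2 hv0)), mul_comm]
    exact h3
  have h4 : (‖v‖ : ℂ) ^ 2 = (starRingEnd ℂ) v * v := by
    rw [mul_comm, Complex.mul_conj, Complex.normSq_eq_norm_sq]
    push_cast
    rfl
  have h5 : (starRingEnd ℂ) (ee τ) * ee τ = 1 := by
    rw [mul_comm, Complex.mul_conj, Complex.normSq_eq_norm_sq, norm_ee]
    norm_num
  have h6 : (starRingEnd ℂ) v = 1 + (c : ℂ) * (starRingEnd ℂ) (ee τ) := by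
    rw [hv, map_add, map_one, map_mul, Complex.conj_ofReal]
  rw [h1, h2, ← hv, inv_div, div_pow, h4, eq_div_iff hv0]
  have h7 : (starRingEnd ℂ) v * v / v ^ 2 * ee τ * v = (starRingEnd ℂ) v * ee τ := by
    field_simp
  rw [h7, h6]
  linear_combination (c : ℂ) * h5

/-- derivative of the phase -/
theorem hasDerivAt_eF (q : ℕ) (c u : ℝ) (hc : 0 ≤ c) (hc' : c ≤ 1 / 10) :
    HasDerivAt (fun u : ℝ => eF ((c : ℂ) * ee (q * u)))
      (2 * q * ((c : ℂ) * ee (q * u) / (1 + (c : ℂ) * ee (q * u))).re) u := by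
  have hz : ‖(c : ℂ) * ee (q * u)‖ ≤ 1 / 10 := by rw [norm_cee c _ hc]; exact hc'
  have h1 : HasDerivAt (fun u : ℝ => ((2 * Real.pi * (q * u) : ℝ) : ℂ) * Complex.I)
      (((2 * Real.pi * q : ℝ) : ℂ) * Complex.I) u := by
    have h2 : HasDerivAt (fun u : ℝ => 2 * Real.pi * (q * u)) (2 * Real.pi * q) u := by
      have := ((hasDerivAt_id u).const_mul (2 * Real.pi * q))
      simp only [id, mul_one] at this
      refine this.congr_of_eventuallyEq (Eventually.of_forall fun t => ?_)
      simp only [mul_assoc]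
    exact h2.ofReal_comp.mul_const Complex.I
  have h3 : HasDerivAt (fun u : ℝ => 1 + (c : ℂ) * ee (q * u))
      ((c : ℂ) * (ee (q * u) * (((2 * Real.pi * q : ℝ) : ℂ) * Complex.I))) u := by
    have := (h1.cexp.const_mul (c : ℂ)).const_add 1
    exact this
  have hsl : 1 + (c : ℂ) * ee (q * u) ∈ Complex.slitPlane := by
    left
    have := re_pos hz
    linarith
  have h4 := h3.clog_real hsl
  have h5 : HasDerivAt (fun u : ℝ => (Complex.log (1 + (c : ℂ) * ee (q * u))).im)
      ((c : ℂ) * (ee (q * u) * (((2 * Real.pi * q : ℝ) : ℂ) * Complex.I)) /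
        (1 + (c : ℂ) * ee (q * u))).im u :=
    Complex.imCLM.hasFDerivAt.comp_hasDerivAt u h4
  have h6 := h5.div_const Real.pi
  have h7 : (fun u : ℝ => eF ((c : ℂ) * ee (q * u))) =
      fun u : ℝ => (Complex.log (1 + (c : ℂ) * ee (q * u))).im / Real.pi := by
    funext u
    rw [Complex.log_im]
    rfl
  rw [h7]
  have h8 : ((c : ℂ) * (ee (q * u) * (((2 * Real.pi * q : ℝ) : ℂ) * Complex.I)) /
        (1 + (c : ℂ) * ee (q * u))).im / Real.pi =
      2 * q * ((c : ℂ) * ee (q * u) / (1 + (c : ℂ) * ee (q * u))).re := by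
    have h9 : (c : ℂ) * (ee (q * u) * (((2 * Real.pi * q : ℝ) : ℂ) * Complex.I)) /
        (1 + (c : ℂ) * ee (q * u)) = ((2 * Real.pi * q : ℝ) : ℂ) *
        (((c : ℂ) * ee (q * u) / (1 + (c : ℂ) * ee (q * u))) * Complex.I) := by
      ring
    rw [h9, Complex.im_ofReal_mul, Complex.mul_I_im]
    field_simp
  rw [← h8]
  exact h6

theorem deriv_rho_nonpos (u : ℝ) (hu : u ≤ 0) : deriv Real.smoothTransition u = 0 := by
  refine IsLocalMin.deriv_eq_zero (Eventually.of_forall fun y => ?_)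
  rw [Real.smoothTransition.zero_of_nonpos hu]
  exact Real.smoothTransition.nonneg y

theorem deriv_rho_one_le (u : ℝ) (hu : 1 ≤ u) : deriv Real.smoothTransition u = 0 := by
  refine IsLocalMax.deriv_eq_zero (Eventually.of_forall fun y => ?_)
  rw [Real.smoothTransition.one_of_one_le hu]
  exact Real.smoothTransition.le_one y

theorem exists_bound : ∃ C : ℝ, 0 ≤ C ∧ ∀ u, |deriv Real.smoothTransition u| ≤ C := by
  have hcd : ContDiff ℝ 1 Real.smoothTransition := Real.smoothTransition.contDiff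
  have hc : Continuous (deriv Real.smoothTransition) := hcd.continuous_deriv le_rfl
  obtain ⟨C, hC⟩ := isCompact_Icc.exists_bound_of_continuousOn (s := Icc (0 : ℝ) 1) hc.continuousOn
  refine ⟨max C 0, le_max_right _ _, fun u => ?_⟩
  by_cases h0 : u ≤ 0
  · rw [deriv_rho_nonpos u h0, abs_zero]
    exact le_max_right _ _
  · by_cases h1 : 1 ≤ u
    · rw [deriv_rho_one_le u h1, abs_zero]
      exact le_max_right _ _
    · have := hC u ⟨(not_le.1 h0).le, (not_le.1 h1).le⟩
      rw [Real.norm_eq_abs] at this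
      exact this.trans (le_max_left _ _)

theorem hasDerivAt_Psi (q : ℕ) (c u : ℝ) (hq : 1 ≤ q) (hc : 0 ≤ c) (hc' : c ≤ 1 / 10) :
    HasDerivAt (Psi q c)
      (1 - (deriv Real.smoothTransition u * eF ((c : ℂ) * ee (q * u))) / q -
        2 * Real.smoothTransition u * ((c : ℂ) * ee (q * u) / (1 + (c : ℂ) * ee (q * u))).re) u := by
  have hcd : ContDiff ℝ 1 Real.smoothTransition := Real.smoothTransition.contDiff
  have h1 : HasDerivAt Real.smoothTransition (deriv Real.smoothTransition u) u :=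
    (hcd.differentiable one_ne_zero u).hasDerivAt
  have h2 := (hasDerivAt_id u).sub ((h1.mul (hasDerivAt_eF q c u hc hc')).div_const (q : ℝ))
  have hq0 : (q : ℝ) ≠ 0 := by
    have : 0 < q := hq
    exact_mod_cast this.ne'
  have h3 : 1 - (deriv Real.smoothTransition u * eF ((c : ℂ) * ee (q * u)) +
      Real.smoothTransition u * (2 * q * ((c : ℂ) * ee (q * u) / (1 + (c : ℂ) * ee (q * u))).re)) / q =
      1 - (deriv Real.smoothTransition u * eF ((c : ℂ) * ee (q * u))) / q -
        2 * Real.smoothTransition u * ((c : ℂ) * ee (q * u) / (1 + (c : ℂ) * ee (q * u))).re := by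
    field_simp
    ring
  rw [h3] at h2
  exact h2

theorem abs_re_le {c τ : ℝ} (hc : 0 ≤ c) (hc' : c ≤ 1 / 10) :
    |((c : ℂ) * ee τ / (1 + (c : ℂ) * ee τ)).re| ≤ 10 / 9 * c := by
  have hz : ‖(c : ℂ) * ee τ‖ ≤ 1 / 10 := by rw [norm_cee c τ hc]; exact hc'
  have hn := norm_ge hz
  refine (Complex.abs_re_le_norm _).trans ?_
  rw [norm_div, norm_cee c τ hc, div_le_iff₀ (by linarith)]
  nlinarith

theorem gPSI : StmtPSI := by
  obtain ⟨C, hC0, hC⟩ := exists_bound
  refine ⟨C + 3, by linarith, ?_⟩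
  intro q c hq hc hc'
  have hq1 : (1 : ℝ) ≤ q := by exact_mod_cast hq
  have hqp : (0 : ℝ) < q := by linarith
  have hF : ∀ u : ℝ, |eF ((c : ℂ) * ee (q * u))| ≤ c := by
    intro u
    have := abs_eF (z := (c : ℂ) * ee (q * u)) (by rw [norm_cee c _ hc]; exact hc')
    rwa [norm_cee c _ hc] at this
  have hd : ∀ u : ℝ, |Psi q c u - u| ≤ c / q := by
    intro u
    have h1 : Psi q c u - u = -(Real.smoothTransition u * eF ((c : ℂ) * ee (q * u)) / q) := by
      unfold Psi
      ring
    rw [h1, abs_neg, abs_div, abs_mul, abs_of_nonneg (Real.smoothTransition.nonneg u), abs_of_pos hqp]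
    gcongr
    calc Real.smoothTransition u * |eF ((c : ℂ) * ee (q * u))| ≤ 1 * c :=
          mul_le_mul (Real.smoothTransition.le_one u) (hF u) (abs_nonneg _) zero_le_one
      _ = c := one_mul c
  have hD := fun u => hasDerivAt_Psi q c u hq hc hc'
  have hcont : Continuous (Psi q c) := continuous_iff_continuousAt.2 fun u => (hD u).continuousAt
  have hcq : c / q ≤ 1 := by
    rw [div_le_one hqp]
    linarith
  refine ⟨?_, ?_⟩
  · refine hcont.surjective ?_ ?_
    · refine tendsto_atTop_mono (fun u => ?_) (tendsto_atTop_add_const_right atTop (-1 : ℝ) tendsto_id)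
      have := (abs_le.1 (hd u)).1
      simp only [id]
      linarith
    · refine tendsto_atBot_mono (fun u => ?_) (tendsto_atBot_add_const_right atBot (1 : ℝ) tendsto_id)
      have := (abs_le.1 (hd u)).2
      simp only [id]
      linarith
  intro u
  have hder := (hD u).deriv
  refine ⟨?_, ?_, hd u, ?_, ?_, ?_, ?_, hF u, ee_eF c (q * u) hc hc'⟩
  · intro hu
    unfold Psi
    rw [Real.smoothTransition.zero_of_nonpos hu]
    simp
  · intro hu
    unfold Psi
    rw [Real.smoothTransition.one_of_one_le hu, one_mul]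
  · rw [hder]
    exact hD u
  · rw [hder]
    have h1 : |deriv Real.smoothTransition u * eF ((c : ℂ) * ee (q * u)) / q| ≤ C * c := by
      rw [abs_div, abs_mul, abs_of_pos hqp, div_le_iff₀ hqp]
      calc |deriv Real.smoothTransition u| * |eF ((c : ℂ) * ee (q * u))| ≤ C * c :=
            mul_le_mul (hC u) (hF u) (abs_nonneg _) hC0
        _ ≤ C * c * q := le_mul_of_one_le_right (mul_nonneg hC0 hc) hq1
    have h2 : |2 * Real.smoothTransition u *
        ((c : ℂ) * ee (q * u) / (1 + (c : ℂ) * ee (q * u))).re| ≤ 3 * c := by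
      rw [abs_mul, abs_mul, abs_of_nonneg (Real.smoothTransition.nonneg u), abs_two]
      have h3 := abs_re_le (τ := q * u) hc hc'
      calc 2 * Real.smoothTransition u * |((c : ℂ) * ee (q * u) / (1 + (c : ℂ) * ee (q * u))).re| ≤
            2 * 1 * (10 / 9 * c) := by
            gcongr
            · exact Real.smoothTransition.le_one u
        _ ≤ 3 * c := by nlinarith
    calc |1 - deriv Real.smoothTransition u * eF ((c : ℂ) * ee (q * u)) / q -
        2 * Real.smoothTransition u * ((c : ℂ) * ee (q * u) / (1 + (c : ℂ) * ee (q * u))).re - 1| =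
        |(deriv Real.smoothTransition u * eF ((c : ℂ) * ee (q * u)) / q) +
        2 * Real.smoothTransition u * ((c : ℂ) * ee (q * u) / (1 + (c : ℂ) * ee (q * u))).re| := by
          rw [← abs_neg]
          congr 1
          ring
      _ ≤ _ := abs_add_le _ _
      _ ≤ C * c + 3 * c := add_le_add h1 h2
      _ = (C + 3) * c := by ring
  · intro hu
    rw [hder, deriv_rho_nonpos u hu, Real.smoothTransition.zero_of_nonpos hu]
    simp
  · intro hu
    rw [hder, deriv_rho_one_le u hu, Real.smoothTransition.one_of_one_le hu]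
    have hz : ‖(c : ℂ) * ee (q * u)‖ ≤ 1 / 10 := by rw [norm_cee c _ hc]; exact hc'
    have hn := norm_ge hz
    obtain ⟨a, ha⟩ : ∃ a, a = (c : ℂ) * ee (q * u) := ⟨_, rfl⟩
    have hna : a.re * a.re + a.im * a.im = c ^ 2 := by
      have h1 : Complex.normSq a = c ^ 2 := by
        rw [Complex.normSq_eq_norm_sq, ha, norm_cee c _ hc]
      rw [← h1, Complex.normSq_apply]
    rw [← ha] at hn ⊢
    have hns : ‖1 + a‖ ^ 2 = (1 + a.re) * (1 + a.re) + a.im * a.im := by
      rw [← Complex.normSq_eq_norm_sq, Complex.normSq_apply]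
      simp
    have hpos : 0 < (1 + a.re) * (1 + a.re) + a.im * a.im := by
      rw [← hns]
      positivity
    have hre : (a / (1 + a)).re = (a.re * (1 + a.re) + a.im * a.im) /
        ((1 + a.re) * (1 + a.re) + a.im * a.im) := by
      rw [Complex.div_re, Complex.normSq_apply]
      simp
      ring
    rw [hre, hns, eq_div_iff hpos.ne']
    rw [zero_mul, zero_div, sub_zero, mul_one]
    have hkey : ∀ D x : ℝ, D ≠ 0 → (1 - 2 * (x / D)) * D = D - 2 * x := by
      intro D x hD
      field_simp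
    rw [hkey _ _ hpos.ne']
    linear_combination -hna

end Pool.Agent.Helper4.TOF
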